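import Pool.Agent.MP_90aa3f_co.H64.Words

set_option autoImplicit false

namespace Pool.Agent.MP_90aa3f_co.H64

variable {A : Type} {u : ℕ → A}

/-- Antisymmetric functions on words. -/
def Anti (χ : List A → ℚ) : Prop := ∀ z, χ z.reverse = -χ z

/-- Cumulated cocycle. -/
def cum (u : ℕ → A) (χ : List A → ℚ) (m i : ℕ) : ℚ :=
  ∑ j ∈ Finset.range i, χ (win u j (m + 1))

lemma cum_add (χ : List A → ℚ) (m i t : ℕ) :
    cum u χ m (i + t) = cum u χ m i + ∑ e ∈ Finset.range t, χ (win u (i + e) (m + 1)) := by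
  unfold cum
  rw [Finset.sum_range_add]

lemma cum_rev {χ : List A → ℚ} (hχ : Anti χ) {m i j t : ℕ} (h : Rvw u i j (m + t)) :
    cum u χ m (j + t) - cum u χ m j = -(cum u χ m (i + t) - cum u χ m i) := by
  rw [cum_add, cum_add, add_sub_cancel_left, add_sub_cancel_left, ← Finset.sum_neg_distrib,
    ← Finset.sum_range_reflect]
  apply Finset.sum_congr rfl
  intro e he
  rw [Finset.mem_range] at he
  rw [← hχ, (rvw_iff u _ _ _).mp (h.sub e (t - 1 - e) (m + 1) (by omega))]

lemma level {K : ℕ} (hK : ∀ e, K < e → Good u 0 e) {χ : List A → ℚ} (hχ : Anti χ) (m t : ℕ)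
    (hn : K ≤ m + t) (d i : ℕ) (h : Cl u i (i + d) (m + t)) :
    (Eqw u i (i + d) (m + t) ∧ cum u χ m (i + d) = cum u χ m i ∧
        cum u χ m (i + d + t) = cum u χ m (i + t)) ∨
      (Rvw u i (i + d) (m + t) ∧ cum u χ m (i + d) = cum u χ m (i + t) ∧
        cum u χ m (i + d + t) = cum u χ m i) := by
  induction d using Nat.strong_induction_on generalizing i with
  | _ d ih =>
  rcases Nat.eq_zero_or_pos d with rfl | hd
  · exact Or.inl ⟨fun _ _ => rfl, rfl, rfl⟩
  by_cases hin : ∃ e, 0 < e ∧ e < d ∧ Cl u i (i + e) (m + t)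
  · obtain ⟨e, he0, he1, he2⟩ := hin
    obtain ⟨f, rfl⟩ := Nat.exists_eq_add_of_lt he1
    have h' : Cl u (i + e) (i + e + (f + 1)) (m + t) := by
      rw [show i + e + (f + 1) = i + (e + f + 1) by omega]; exact he2.symm.trans h
    have r1 := ih e he1 i he2
    have r2 := ih (f + 1) (by omega) (i + e) h'
    rw [show i + e + (f + 1) = i + (e + f + 1) by omega] at r2
    rcases r1 with ⟨a1, a2, a3⟩ | ⟨a1, a2, a3⟩ <;> rcases r2 with ⟨b1, b2, b3⟩ | ⟨b1, b2, b3⟩
    · exact Or.inl ⟨a1.trans b1, b2.trans a2, b3.trans a3⟩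
    · exact Or.inr ⟨a1.trans_rvw b1, b2.trans a3, b3.trans a2⟩
    · exact Or.inr ⟨a1.trans_eqw b1, b2.trans a2, b3.trans a3⟩
    · exact Or.inl ⟨a1.trans b1, b2.trans a3, b3.trans a2⟩
  · push Not at hin
    have hp := return_pal hK d (m + t) hd (by omega) i h hin
    have h1 : Rvw u i (i + d) (m + t) := by simpa using hp.sub 0 d (m + t) (by omega)
    have e1 := cum_rev hχ (m := m) (t := d + t) (by rw [show m + (d + t) = d + (m + t) by omega]; exact hp)
    have e2 := cum_rev hχ h1
    rw [← add_assoc] at e1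
    exact Or.inr ⟨h1, by linarith, by linarith⟩

lemma level_eq {K : ℕ} (hK : ∀ e, K < e → Good u 0 e) {χ : List A → ℚ} (hχ : Anti χ) (m t : ℕ)
    (hn : K ≤ m + t) (i j : ℕ) (h : Eqw u i j (m + t)) :
    cum u χ m j = cum u χ m i ∧ cum u χ m (j + t) = cum u χ m (i + t) := by
  wlog hij : i ≤ j generalizing i j
  · have := this j i h.symm (by omega)
    exact ⟨this.1.symm, this.2.symm⟩
  obtain ⟨d, rfl⟩ := Nat.exists_eq_add_of_le hij
  rcases level hK hχ m t hn d i (Or.inl h) with ⟨-, a2, a3⟩ | ⟨a1, a2, a3⟩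
  · exact ⟨a2, a3⟩
  · have := cum_rev hχ (a1.trans_eqw h.symm)
    constructor <;> linarith

/-- A function of positions which only depends on the window is a function of words. -/
lemma exists_pot (n : ℕ) (S : ℕ → ℚ) (hS : ∀ i j, Eqw u i j n → S j = S i) :
    ∃ ψ : List A → ℚ, ∀ i, ψ (win u i n) = S i := by
  classical
  refine ⟨fun z => if h : ∃ i, z = win u i n then S h.choose else 0, fun i => ?_⟩
  have h : ∃ j, win u i n = win u j n := ⟨i, rfl⟩
  simp only [dif_pos h]
  exact hS _ _ ((eqw_iff u _ _ _).mpr h.choose_spec)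

/-- The extension graph of `w` carries no cycle for the function `h`. -/
def Pot (u : ℕ → A) (w : List A) (h : A → A → ℚ) : Prop :=
  ∃ fL fR : A → ℚ, ∀ a b, Lang u (a :: w ++ [b]) → h a b = fR b - fL a

lemma pot_long {K : ℕ} (hK : ∀ e, K < e → Good u 0 e) (W : List A) (hW : K ≤ W.length)
    {χ : List A → ℚ} (hχ : Anti χ) : Pot u W (fun a b => χ (a :: W ++ [b])) := by
  obtain ⟨ψ, hψ⟩ := exists_pot (u := u) (W.length + 1) (cum u χ (W.length + 1))
    (fun i j h => (level_eq hK hχ (W.length + 1) 0 (by omega) i j h).1)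
  refine ⟨fun a => ψ (a :: W), fun b => ψ (W ++ [b]), fun a b h => ?_⟩
  obtain ⟨i, hi⟩ := h
  have hl : (a :: W ++ [b]).length = W.length + 1 + 1 := by simp
  rw [hl] at hi
  have e1 : a :: W = win u i (W.length + 1) := by
    rw [win_succ] at hi
    exact List.append_inj_left' hi rfl
  have e2 : W ++ [b] = win u (i + 1) (W.length + 1) := by
    rw [win_succ'] at hi
    exact (List.cons.inj hi).2
  simp only
  rw [e1, e2, hψ, hψ, cum_add, ← e1, hi]
  simp

lemma pot_nonpal {K : ℕ} (hK : ∀ e, K < e → Good u 0 e) (W : List A) (hW : K ≤ W.length)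
    (hp : W.reverse ≠ W) [Fintype A] (h : A → A → ℚ) : Pot u W h := by
  classical
  set g : List A → ℚ := fun z => ∑ a, ∑ b, if z = a :: W ++ [b] then h a b else 0 with hg
  obtain ⟨fL, fR, hf⟩ := pot_long hK W hW (χ := fun z => g z - g z.reverse)
    (fun z => by simp)
  refine ⟨fL, fR, fun a b hab => ?_⟩
  rw [← hf a b hab]
  have e1 : g (a :: W ++ [b]) = h a b := by
    simp only [hg]
    rw [Finset.sum_eq_single a, Finset.sum_eq_single b]
    · simp
    · intro b' _ hb'; simp [hb'.symm]
    · simp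
    · intro a' _ ha'; simp [ha'.symm]
    · simp
  have e2 : g (a :: W ++ [b]).reverse = 0 := by
    simp only [hg]
    apply Finset.sum_eq_zero
    intro a' _
    apply Finset.sum_eq_zero
    intro b' _
    rw [if_neg]
    intro hc
    simp only [List.cons_append, List.reverse_cons, List.reverse_append, List.reverse_nil,
      List.nil_append, List.cons.injEq] at hc
    exact hp (List.append_inj_left' hc.2 rfl)
  simp only [e1, e2, sub_zero]

lemma pot_pal {K : ℕ} (hK : ∀ e, K < e → Good u 0 e) (W : List A) (hW : K ≤ W.length)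
    (hp : W.reverse = W) [Fintype A] (h : A → A → ℚ) (hh : ∀ a b, h b a = -h a b) :
    Pot u W h := by
  classical
  set g : List A → ℚ := fun z => ∑ a, ∑ b, if z = a :: W ++ [b] then h a b else 0 with hg
  obtain ⟨fL, fR, hf⟩ := pot_long hK W hW (χ := fun z => (g z - g z.reverse) / 2)
    (fun z => by simp; ring)
  refine ⟨fL, fR, fun a b hab => ?_⟩
  rw [← hf a b hab]
  have e1 : ∀ a b, g (a :: W ++ [b]) = h a b := by
    intro a b
    simp only [hg]
    rw [Finset.sum_eq_single a, Finset.sum_eq_single b]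
    · simp
    · intro b' _ hb'; simp [hb'.symm]
    · simp
    · intro a' _ ha'; simp [ha'.symm]
    · simp
  have e2 : (a :: W ++ [b]).reverse = b :: W ++ [a] := by simp [hp]
  simp only [e2, e1, hh a b]
  ring

lemma pot_eps {K : ℕ} (hK : ∀ e, K < e → Good u 0 e) (l r : A → List A)
    (hl : ∀ a, (l a).length = K) (hr : ∀ a, (r a).length = K)
    (hj : ∀ a b, Lang u [a, b] → Lang u ((l a ++ [a]) ++ (b :: r b)))
    {χ : List A → ℚ} (hχ : Anti χ) : Pot u [] (fun a b => χ [a, b]) := by
  obtain ⟨ψ, hψ⟩ := exists_pot (u := u) (1 + K) (cum u χ 1)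
    (fun i j h => (level_eq hK hχ 1 K (by omega) i j h).1)
  obtain ⟨ψ', hψ'⟩ := exists_pot (u := u) (1 + K) (fun i => cum u χ 1 (i + K))
    (fun i j h => (level_eq hK hχ 1 K (by omega) i j h).2)
  refine ⟨fun a => ψ' (l a ++ [a]), fun b => ψ (b :: r b), fun a b h => ?_⟩
  obtain ⟨i, hi⟩ := hj a b h
  have hlen : ((l a ++ [a]) ++ (b :: r b)).length = (1 + K) + (1 + K) := by
    simp [hl, hr]; omega
  rw [hlen, win_add] at hi
  obtain ⟨e1, e2⟩ := List.append_inj hi (by simp [hl]; omega)
  simp only
  rw [e1, e2, hψ, hψ', show i + (1 + K) = i + K + 1 by omega, cum_add]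
  rw [add_comm 1 K, win_succ] at e1
  rw [add_comm 1 K, win_succ'] at e2
  have e3 : a = u (i + K) := by simpa using List.append_inj_right' e1 rfl
  have e4 : b = u (i + (K + 1)) := (List.cons.inj e2).1
  simp [win, List.range_succ, e3, e4, add_assoc]

lemma lang_reverse {K : ℕ} (hK : ∀ e, K < e → Good u 0 e)
    (hrec : ∀ i n, ∃ j, i < j ∧ Eqw u i j n) {z : List A} (hz : Lang u z) : Lang u z.reverse := by
  classical
  obtain ⟨i, hi⟩ := hz
  have hex : ∃ d, 0 < d ∧ Cl u i (i + d) (z.length + K) := by
    obtain ⟨j, hj, h⟩ := hrec i (z.length + K)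
    obtain ⟨d, rfl⟩ := Nat.exists_eq_add_of_lt hj
    exact ⟨d + 1, by omega, Or.inl h⟩
  have h1 := Nat.find_spec hex
  have hp := return_pal hK _ _ h1.1 (by omega) i h1.2
    (fun e he he' hc => Nat.find_min hex he' ⟨he, hc⟩)
  have h2 := hp.sub 0 (Nat.find hex + K) z.length (by omega)
  refine ⟨i + (Nat.find hex + K), ?_⟩
  rw [List.length_reverse, ← (rvw_iff u _ _ _).mp h2, add_zero, ← hi]

/-- Antisymmetric cocycles at level `n` are coboundaries. -/
lemma tree (hrev : ∀ z, Lang u z → Lang u z.reverse)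
    (hA : ∀ (w : List A) (χ : List A → ℚ), Lang u w → Anti χ →
      Pot u w (fun a b => χ (a :: w ++ [b]))) (n : ℕ) :
    ∀ χ : List A → ℚ, Anti χ → ∃ ψ : List A → ℚ, (∀ z, ψ z.reverse = ψ z) ∧
      ∀ i, χ (win u i (n + 1)) = ψ (win u (i + 1) n) - ψ (win u i n) := by
  classical
  induction n with
  | zero =>
    intro χ hχ
    refine ⟨fun _ => 0, fun _ => rfl, fun i => ?_⟩
    have := hχ (win u i 1)
    simp [win] at this ⊢
    linarith
  | succ n ih =>
    intro χ hχ
    have hA' : ∀ w : List A, Pot u w (fun a b => χ (a :: w ++ [b])) := by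
      intro w
      by_cases hw : Lang u w
      · exact hA w χ hw hχ
      · exact ⟨0, 0, fun a b h => (hw (h.sub ⟨[a], [b], by simp⟩)).elim⟩
    choose fL fR hf using hA'
    -- `al c` for `c = a :: w`
    set al : List A → ℚ := fun c => match c with
      | [] => 0
      | a :: w => (fL w a + fR w.reverse a) / 2 with hal
    have key : ∀ a w b, Lang u (a :: w ++ [b]) →
        χ (a :: w ++ [b]) = al (w ++ [b]).reverse - al (a :: w) := by
      intro a w b h
      have h' := hrev _ h
      have e : (a :: w ++ [b]).reverse = b :: w.reverse ++ [a] := by simp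
      have e1 := hf w a b h
      have e2 := hf w.reverse b a (e ▸ h')
      have e3 := hχ (a :: w ++ [b])
      rw [e] at e3
      simp only [hal, List.reverse_append, List.reverse_cons, List.reverse_nil, List.nil_append,
        List.singleton_append, List.reverse_reverse] at e1 e2 ⊢
      linarith
    obtain ⟨ψ1, s1, h1⟩ := ih (fun c => al c.reverse - al c) (fun z => by simp)
    refine ⟨fun c => (al c.reverse + ψ1 c.dropLast + (al c + ψ1 c.tail)) / 2, fun z => ?_,
      fun i => ?_⟩
    · simp only [List.reverse_reverse, List.dropLast_reverse, List.tail_reverse, s1]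
      ring
    · have d1 : ∀ j, (win u j (n + 1)).dropLast = win u j n := by
        intro j; rw [win_succ]; simp
      have d2 : ∀ j, (win u j (n + 1)).tail = win u (j + 1) n := by
        intro j; rw [win_succ']; simp
      have e0 : win u i (n + 1 + 1) = u i :: win u (i + 1) n ++ [u (i + 1 + n)] := by
        rw [win_succ', win_succ]; rfl
      have k := key (u i) (win u (i + 1) n) (u (i + 1 + n)) (e0 ▸ lang_win u _ _)
      rw [← e0, ← win_succ, ← win_succ'] at k
      have a1 := h1 i
      have a2 := h1 (i + 1)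
      simp only [d1, d2] at a1 a2 ⊢
      linarith

theorem rich (hrev : ∀ z, Lang u z → Lang u z.reverse)
    (hA : ∀ (w : List A) (χ : List A → ℚ), Lang u w → Anti χ →
      Pot u w (fun a b => χ (a :: w ++ [b]))) (i n : ℕ) : Good u i (i + n + 1) := by
  classical
  by_contra hbad
  -- the longest palindromic suffix
  set m := Nat.findGreatest (fun m => Rvw u (i + n + 1 - m) (i + n + 1 - m) m) (n + 1) with hm
  have hm1 : 1 ≤ m := Nat.le_findGreatest (P := fun m => Rvw u (i + n + 1 - m) (i + n + 1 - m) m)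
    (by omega) (fun k l h => by rw [show k = 0 by omega, show l = 0 by omega])
  have hm2 : m ≤ n + 1 := Nat.findGreatest_le _
  have hm3 : Rvw u (i + n + 1 - m) (i + n + 1 - m) m :=
    Nat.findGreatest_of_ne_zero (P := fun m => Rvw u (i + n + 1 - m) (i + n + 1 - m) m)
      hm.symm (by omega)
  have hm4 : ∀ m', m < m' → m' ≤ n + 1 → ¬ Rvw u (i + n + 1 - m') (i + n + 1 - m') m' :=
    fun m' h1 h2 => Nat.findGreatest_is_greatest
      (P := fun m => Rvw u (i + n + 1 - m) (i + n + 1 - m) m) h1 h2
  set s := i + n + 1 - m with hs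
  have hex : ∃ d, 0 < d ∧ d + i ≤ s ∧ Eqw u (s - d) s m := by
    by_contra hc
    push Not at hc
    exact hbad ⟨s, m, by omega, by omega, hm3, fun j h1 h2 h3 =>
      hc (s - j) (by omega) (by omega) (by rw [show s - (s - j) = j by omega]; exact h3)⟩
  obtain ⟨hd0, hd1, hd2⟩ := Nat.find_spec hex
  set d := Nat.find hex with hd
  set j := s - d with hj
  have hsj : s = j + d := by omega
  have np : ¬ Rvw u j j (d + m) := by
    have := hm4 (d + m) (by omega) (by omega)
    rwa [show i + n + 1 - (d + m) = j by omega] at this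
  have inner : ∀ e, 0 < e → e < d → ¬ Cl u j (j + e) m := by
    intro e h1 h2 hc
    have h3 : Eqw u (j + e) s m := by
      rcases hc with hc | hc
      · exact hc.symm.trans hd2
      · exact (hc.symm.trans_eqw hd2).trans hm3
    exact Nat.find_min hex (m := d - e) (by omega)
      ⟨by omega, by omega, by rw [show s - (d - e) = j + e by omega]; exact h3⟩
  -- the longest matching of the two ends
  set p := Nat.findGreatest (fun p => Rvw u j (j + (d + m - p)) p) (d + m - 1) with hp
  have hp0 : Rvw u j (j + (d + m - m)) m := by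
    rw [show j + (d + m - m) = s by omega]; exact hd2.trans_rvw hm3
  have hp1 : m ≤ p := Nat.le_findGreatest (P := fun p => Rvw u j (j + (d + m - p)) p)
    (by omega) hp0
  have hp2 : p ≤ d + m - 1 := Nat.findGreatest_le _
  have hp3 : Rvw u j (j + (d + m - p)) p := Nat.findGreatest_of_ne_zero
    (P := fun p => Rvw u j (j + (d + m - p)) p) hp.symm (by omega)
  have hp4 : p + 1 ≤ d + m - 1 → ¬ Rvw u j (j + (d + m - (p + 1))) (p + 1) :=
    fun h2 => Nat.findGreatest_is_greatest (P := fun p => Rvw u j (j + (d + m - p)) p)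
      (Nat.lt_succ_self _) h2
  obtain ⟨t, ht⟩ : ∃ t, d + m = p + (t + 1) := ⟨d + m - p - 1, by omega⟩
  rw [show d + m - p = t + 1 by omega] at hp3
  rw [show d + m - (p + 1) = t by omega] at hp4
  have inner' : ∀ e, 0 < e → e < t + 1 → ¬ Cl u j (j + e) p := by
    intro e h1 h2 hc
    rcases hc with hc | hc
    · exact inner e h1 (by omega) (Or.inl (by simpa using hc.sub 0 m (by omega)))
    · refine inner (e + (p - m)) (by omega) (by omega) (Or.inr ?_)
      simpa [add_assoc] using hc.sub 0 (p - m) m (by omega)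
  obtain ⟨ψ, s1, h1⟩ := tree hrev hA p
    (fun z => (if z = win u j (p + 1) then 1 else 0) - (if z.reverse = win u j (p + 1) then 1 else 0))
    (fun z => by simp)
  have tel : ∀ e, e ≤ t → ψ (win u (j + e + 1) p) = ψ (win u j p) + 1 := by
    intro e he
    induction e with
    | zero =>
      have := h1 j
      rw [if_pos rfl, if_neg] at this
      · simp only [add_zero]; linarith
      · intro hc
        have h2 := (rvw_iff u _ _ _).mpr hc
        rcases Nat.eq_zero_or_pos t with h | h
        · apply np; rw [ht, h]; exact h2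
        · exact inner' 1 (by omega) (by omega) (Or.inr (by simpa using h2.sub 0 1 p (by omega)))
    | succ e ih =>
      have := h1 (j + e + 1)
      rw [if_neg, if_neg] at this
      · rw [← ih (by omega), ← add_assoc]; linarith
      · intro hc
        have h2 := ((rvw_iff u _ _ _).mpr hc).symm
        rcases he.lt_or_eq with h | h
        · refine inner' (e + 2) (by omega) (by omega) (Or.inr ?_)
          simpa [add_assoc] using h2.sub 0 1 p (by omega)
        · apply hp4 (by omega)
          rw [← h, ← add_assoc]; exact h2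
      · intro hc
        have h2 := ((eqw_iff u _ _ _).mpr hc).symm
        refine inner' (e + 1) (by omega) (by omega) (Or.inl ?_)
        simpa [add_assoc] using h2.sub 0 p (by omega)
  have := tel t le_rfl
  rw [add_assoc, ← (rvw_iff u _ _ _).mp hp3, s1] at this
  linarith

end Pool.Agent.MP_90aa3f_co.H64
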