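import Mathlib

set_option autoImplicit false

namespace Pool.Agent.MP_90aa3f_co.H64

variable {A : Type}

/-- The image of a finite word under the morphism sending each letter `a` to `φ a`. -/
def app (φ : A → List A) (w : List A) : List A := w.flatMap φ

/-- The prefix of length `n` of an infinite word. -/
def pre (u : ℕ → A) (n : ℕ) : List A := (List.range n).map u

/-- `w` is a factor of the infinite word `u`. -/
def IsFactor (u : ℕ → A) (w : List A) : Prop := ∃ n, w <:+: pre u n

/-- The palindromic defect of a finite word. -/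
noncomputable def defect (w : List A) : ℤ :=
  (w.length : ℤ) + 1 - (Set.ncard {v : List A | v <:+: w ∧ v.reverse = v} : ℤ)

/-- Primitive morphisms. -/
def Primitive (φ : A → List A) : Prop := ∃ k : ℕ, ∀ a b : A, b ∈ (app φ)^[k] [a]

/-- `φ(u) = u`: the image of every prefix of `u` is a prefix of `u`. -/
def IsFixedPoint (φ : A → List A) (u : ℕ → A) : Prop := ∀ n, ∃ m, app φ (pre u n) = pre u m

/-- Conjugate morphisms. -/
def Conj (φ ψ : A → List A) : Prop :=
  ∃ w : List A, (∀ a, φ a ++ w = w ++ ψ a) ∨ (∀ a, w ++ φ a = ψ a ++ w)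

/-- Marked morphisms. -/
def Marked (φ : A → List A) : Prop :=
  ∃ φ₁ φ₂ : A → List A, Conj φ φ₁ ∧ Conj φ φ₂ ∧
    (∀ b, ∃ a, (φ₁ a).getLast? = some b) ∧ (∀ b, ∃ a, (φ₂ a).head? = some b)

end Pool.Agent.MP_90aa3f_co.H64
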