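import Pool.Agent.MP_90aa3f_co.H64.Cocycle

set_option autoImplicit false

namespace Pool.Agent.MP_90aa3f_co.H64

variable {A : Type}

@[simp] lemma app_nil (φ : A → List A) : app φ [] = [] := rfl
@[simp] lemma app_cons (φ : A → List A) (a : A) (v : List A) :
    app φ (a :: v) = φ a ++ app φ v := by simp [app]
@[simp] lemma app_append (φ : A → List A) (v w : List A) :
    app φ (v ++ w) = app φ v ++ app φ w := by simp [app]

lemma iter_append (φ : A → List A) (N : ℕ) (v w : List A) :
    (app φ)^[N] (v ++ w) = (app φ)^[N] v ++ (app φ)^[N] w := by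
  induction N generalizing v w with
  | zero => rfl
  | succ N ih => simp [Function.iterate_succ_apply, ih]

lemma app_infix (φ : A → List A) {v w : List A} (h : v <:+: w) : app φ v <:+: app φ w := by
  obtain ⟨s, t, rfl⟩ := h
  exact ⟨app φ s, app φ t, by simp⟩

lemma app_reverse (φ : A → List A) (v : List A) :
    (app φ v).reverse = app (fun a => (φ a).reverse) v.reverse := by
  induction v with
  | nil => rfl
  | cons a v ih => simp [ih]

lemma app_eq_letters {f g : A → List A} (hl : ∀ a, (f a).length = (g a).length) {W : List A}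
    (h : app f W = app g W) : ∀ a ∈ W, f a = g a := by
  induction W with
  | nil => simp
  | cons b W ih =>
    simp only [app_cons] at h
    obtain ⟨h1, h2⟩ := List.append_inj h (hl b)
    intro a ha
    rcases List.mem_cons.mp ha with rfl | ha
    · exact h1
    · exact ih h2 a ha

lemma length_app {φ : A → List A} {c : ℕ} (h : ∀ a, c ≤ (φ a).length) (v : List A) :
    c * v.length ≤ (app φ v).length := by
  induction v with
  | nil => simp
  | cons a v ih =>
    simp only [app_cons, List.length_cons, List.length_append]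
    have := h a
    rw [Nat.mul_succ]; omega

lemma app_inj {f : A → List A} {σ : A ≃ A} {t : A → List A} (h : ∀ a, f a = σ a :: t a) :
    Function.Injective (app f) := by
  intro v w hvw
  induction v generalizing w with
  | nil =>
    cases w with
    | nil => rfl
    | cons b w => simp [h] at hvw
  | cons a v ih =>
    cases w with
    | nil => simp [h] at hvw
    | cons b w =>
      have h1 : a = b := by
        simp only [app_cons, h, List.cons_append, List.cons.injEq] at hvw
        exact σ.injective hvw.1
      subst h1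
      simp only [app_cons, List.append_cancel_left_eq] at hvw
      rw [ih hvw]

lemma exists_head [Finite A] {f : A → List A} (h : ∀ b, ∃ a, (f a).head? = some b) :
    ∃ (σ : A ≃ A) (t : A → List A), ∀ a, f a = σ a :: t a := by
  choose g hg using h
  have hinj : Function.Injective g := by
    intro b b' hb
    have := hg b
    rw [hb, hg b'] at this
    exact (Option.some.inj this).symm
  let e := Equiv.ofBijective g (Finite.injective_iff_bijective.mp hinj)
  refine ⟨e.symm, fun a => (f a).tail, fun a => ?_⟩
  have h1 : g (e.symm a) = a := e.apply_symm_apply a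
  have h2 := hg (e.symm a)
  rw [h1] at h2
  exact List.eq_cons_of_mem_head? (by rw [h2]; rfl)

lemma exists_last [Finite A] {f : A → List A} (h : ∀ b, ∃ a, (f a).getLast? = some b) :
    ∃ (σ : A ≃ A) (t : A → List A), ∀ a, f a = t a ++ [σ a] := by
  obtain ⟨σ, t, ht⟩ := exists_head (f := fun a => (f a).reverse) (by simpa using h)
  refine ⟨σ, fun a => (t a).reverse, fun a => ?_⟩
  have := congrArg List.reverse (ht a)
  simpa using this

/-- The data attached to a primitive marked morphism with a fixed point. -/
structure Data (A : Type) where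
  φ : A → List A
  f1 : A → List A
  f2 : A → List A
  w1 : List A
  w2 : List A
  s1 : A ≃ A
  s2 : A ≃ A
  t1 : A → List A
  t2 : A → List A
  k : ℕ
  u : ℕ → A
  h1 : ∀ a, w1 ++ φ a = f1 a ++ w1
  h2 : ∀ a, φ a ++ w2 = w2 ++ f2 a
  e1 : ∀ a, f1 a = t1 a ++ [s1 a]
  e2 : ∀ a, f2 a = s2 a :: t2 a
  prim : ∀ a b, b ∈ (app φ)^[k] [a]
  fix : IsFixedPoint φ u

lemma exists_data [Finite A] [Nontrivial A] {φ : A → List A} {u : ℕ → A} (hp : Primitive φ)
    (hm : Marked φ) (hf : IsFixedPoint φ u) : ∃ D : Data A, D.u = u := by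
  obtain ⟨k, hk⟩ := hp
  obtain ⟨f1, f2, ⟨w1, c1⟩, ⟨w2, c2⟩, m1, m2⟩ := hm
  obtain ⟨s1, t1, e1⟩ := exists_last m1
  obtain ⟨s2, t2, e2⟩ := exists_head m2
  obtain ⟨x, y, hxy⟩ := exists_pair_ne A
  have c1' : ∃ w1 : List A, ∀ a, w1 ++ φ a = f1 a ++ w1 := by
    rcases c1 with c1 | c1
    · rcases List.eq_nil_or_concat w1 with rfl | ⟨w, c, rfl⟩
      · exact ⟨[], fun a => by simpa using c1 a⟩
      · exfalso
        have : ∀ a, c = s1 a := by
          intro a
          have := c1 a
          rw [e1, List.concat_eq_append, ← List.append_assoc, ← List.append_assoc] at this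
          simpa using List.append_inj_right' this rfl
        exact hxy (s1.injective ((this x).symm.trans (this y)))
    · exact ⟨w1, c1⟩
  have c2' : ∃ w2 : List A, ∀ a, φ a ++ w2 = w2 ++ f2 a := by
    rcases c2 with c2 | c2
    · exact ⟨w2, c2⟩
    · cases w2 with
      | nil => exact ⟨[], fun a => by simpa using c2 a⟩
      | cons c w =>
        exfalso
        have : ∀ a, c = s2 a := by
          intro a
          have := c2 a
          rw [e2] at this
          exact (List.cons.inj this).1
        exact hxy (s2.injective ((this x).symm.trans (this y)))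
  obtain ⟨v1, d1⟩ := c1'
  obtain ⟨v2, d2⟩ := c2'
  exact ⟨⟨φ, f1, f2, v1, v2, s1, s2, t1, t2, k, u, d1, d2, e1, e2, hk, hf⟩, rfl⟩

namespace Data

variable (D : Data A)

lemma len2 (a : A) : (D.φ a).length = (D.f2 a).length := by
  have := congrArg List.length (D.h2 a)
  simp only [List.length_append] at this
  omega

lemma len1 (a : A) : (D.φ a).length = (D.f1 a).length := by
  have := congrArg List.length (D.h1 a)
  simp only [List.length_append] at this
  omega

lemma len_pos (a : A) : 1 ≤ (D.φ a).length := by
  rw [len2, D.e2]; simp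

lemma le_len (v : List A) : v.length ≤ (app D.φ v).length := by
  simpa using length_app D.len_pos v

lemma le_len_iter (N : ℕ) (v : List A) : v.length ≤ ((app D.φ)^[N] v).length := by
  induction N with
  | zero => exact le_rfl
  | succ N ih => rw [Function.iterate_succ_apply']; exact ih.trans (D.le_len _)

lemma H1 (v : List A) : D.w1 ++ app D.φ v = app D.f1 v ++ D.w1 := by
  induction v with
  | nil => simp
  | cons a v ih =>
    rw [app_cons, app_cons, ← List.append_assoc, D.h1, List.append_assoc, ih, List.append_assoc]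

lemma H2 (v : List A) : app D.φ v ++ D.w2 = D.w2 ++ app D.f2 v := by
  induction v with
  | nil => simp
  | cons a v ih =>
    rw [app_cons, app_cons, List.append_assoc, ih, ← List.append_assoc, D.h2, List.append_assoc]

lemma all_letters {v : List A} (hv : v ≠ []) {N : ℕ} (hN : D.k ≤ N) (b : A) :
    b ∈ (app D.φ)^[N] v := by
  obtain ⟨j, rfl⟩ := Nat.exists_eq_add_of_le hN
  rw [Function.iterate_add_apply]
  have h := D.le_len_iter j v
  cases hw : (app D.φ)^[j] v with
  | nil => rw [hw] at h; simp at h; exact (hv h).elim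
  | cons c w =>
    rw [← List.singleton_append, iter_append]
    exact List.mem_append_left _ (D.prim c b)

lemma grow [Nontrivial A] {v : List A} (hv : v ≠ []) (j : ℕ) {N : ℕ} (hN : D.k * j ≤ N) :
    j + 1 ≤ ((app D.φ)^[N] v).length := by
  have two : ∀ a, 2 ≤ ((app D.φ)^[D.k] [a]).length := by
    intro a
    obtain ⟨x, y, hxy⟩ := exists_pair_ne A
    have hx := D.prim a x
    have hy := D.prim a y
    match hw : (app D.φ)^[D.k] [a] with
    | [] => rw [hw] at hx; simp at hx
    | [c] => rw [hw] at hx hy; simp at hx hy; exact (hxy (hx.trans hy.symm)).elim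
    | _ :: _ :: _ => simp
  have step : ∀ w : List A, w ≠ [] → w.length + 1 ≤ ((app D.φ)^[D.k] w).length := by
    intro w hw
    cases w with
    | nil => exact (hw rfl).elim
    | cons c w =>
      rw [← List.singleton_append, iter_append]
      have := two c
      have := D.le_len_iter D.k w
      simp only [List.length_append, List.length_singleton]
      omega
  have main : ∀ j, j + 1 ≤ ((app D.φ)^[D.k * j] v).length := by
    intro j
    induction j with
    | zero => exact List.length_pos_of_ne_nil hv
    | succ j ih =>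
      rw [Nat.mul_succ, add_comm (D.k * j), Function.iterate_add_apply]
      have := step ((app D.φ)^[D.k * j] v) (by intro h; rw [h] at ih; simp at ih)
      omega
  obtain ⟨i, rfl⟩ := Nat.exists_eq_add_of_le hN
  rw [add_comm (D.k * j), Function.iterate_add_apply]
  exact (main j).trans (D.le_len_iter _ _)

lemma fix_iter (N n : ℕ) : ∃ m, (app D.φ)^[N] (win D.u 0 n) = win D.u 0 m := by
  induction N with
  | zero => exact ⟨n, rfl⟩
  | succ N ih =>
    obtain ⟨m, hm⟩ := ih
    obtain ⟨m', hm'⟩ := D.fix m
    rw [pre_eq, pre_eq] at hm'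
    exact ⟨m', by rw [Function.iterate_succ_apply', hm, hm']⟩

lemma lang_app {v : List A} (h : Lang D.u v) : Lang D.u (app D.φ v) := by
  obtain ⟨n, hn⟩ := (isFactor_iff _ _).mpr h
  obtain ⟨m, hm⟩ := D.fix n
  exact (isFactor_iff _ _).mp ⟨m, hm ▸ app_infix _ hn⟩

lemma lang_iter (N : ℕ) {v : List A} (h : Lang D.u v) : Lang D.u ((app D.φ)^[N] v) := by
  induction N with
  | zero => exact h
  | succ N ih => rw [Function.iterate_succ_apply']; exact D.lang_app ih

lemma recur [Nontrivial A] (i n : ℕ) : ∃ j, i < j ∧ Eqw D.u i j n := by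
  set N := D.k * (i + n) with hN
  obtain ⟨m, hm⟩ := D.fix_iter N 1
  have e0 : win D.u 0 1 = [D.u 0] := by simp [win]
  rw [e0] at hm
  have hlen := D.grow (v := [D.u 0]) (by simp) (i + n) (N := N) le_rfl
  rw [hm, length_win] at hlen
  obtain ⟨s, t, hst⟩ := List.append_of_mem (D.prim (D.u 1) (D.u 0))
  obtain ⟨m', hm'⟩ := D.fix_iter (N + D.k) 2
  have e1 : win D.u 0 2 = [D.u 0] ++ [D.u 1] := by simp [win, List.range_succ]
  rw [e1, Function.iterate_add_apply, iter_append, hst, ← List.singleton_append (l := t),
    ← List.append_assoc, ← List.append_assoc, iter_append, iter_append, hm] at hm'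
  set X := (app D.φ)^[N] ((app D.φ)^[D.k] [D.u 0] ++ s) with hX
  have hX1 : 1 ≤ X.length := by
    have a1 := D.le_len_iter N ((app D.φ)^[D.k] [D.u 0] ++ s)
    have a2 := D.le_len_iter D.k [D.u 0]
    rw [← hX] at a1
    simp only [List.length_append, List.length_singleton] at a1 a2
    omega
  have hl := congrArg List.length hm'
  simp only [List.length_append, length_win] at hl
  rw [← hl, win_add, win_add] at hm'
  have h1 := List.append_inj_right (List.append_inj_left' hm' (by simp)) (by simp)
  have h2 := ((eqw_iff _ _ _ _).mpr h1).sub i n (by omega)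
  exact ⟨0 + X.length + i, by omega, by simpa using h2⟩

lemma extend [Nontrivial A] {v : List A} (h : Lang D.u v) (M : ℕ) :
    ∃ x y : List A, x.length = M ∧ y.length = M ∧ Lang D.u (x ++ v ++ y) := by
  have : ∀ M, ∃ j, M ≤ j ∧ v = win D.u j v.length := by
    intro M
    induction M with
    | zero => obtain ⟨i, hi⟩ := h; exact ⟨i, by omega, hi⟩
    | succ M ih =>
      obtain ⟨i, hi, hv⟩ := ih
      obtain ⟨j, hj, he⟩ := D.recur i v.length
      exact ⟨j, by omega, hv.trans ((eqw_iff _ _ _ _).mp he)⟩
  obtain ⟨j, hj, hv⟩ := this M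
  obtain ⟨i, rfl⟩ := Nat.exists_eq_add_of_le' hj
  refine ⟨win D.u i M, win D.u (i + (M + v.length)) M, by simp, by simp, ?_⟩
  have := lang_win D.u i (M + v.length + M)
  rwa [win_add, win_add, ← hv] at this

/-- The map on bispecial factors. -/
def Ph (v : List A) : List A := D.w1 ++ app D.φ v ++ D.w2

lemma Ph_eq2 (v : List A) : D.Ph v = (D.w1 ++ D.w2) ++ app D.f2 v := by
  rw [Ph, List.append_assoc, H2, List.append_assoc]

lemma Ph_eq1 (v : List A) : D.Ph v = app D.f1 v ++ (D.w1 ++ D.w2) := by
  rw [Ph, H1, List.append_assoc]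

lemma Ph_inj : Function.Injective D.Ph := by
  intro v w h
  rw [Ph_eq2, Ph_eq2, List.append_cancel_left_eq] at h
  exact app_inj D.e2 h

lemma lang_Ph [Nontrivial A] {v : List A} (h : Lang D.u v) : Lang D.u (D.Ph v) := by
  obtain ⟨x, y, hx, hy, hl⟩ := D.extend h (D.w1.length + D.w2.length)
  have h1 : D.w1 <:+ app D.φ x := by
    refine List.suffix_of_suffix_length_le (l₃ := D.w1 ++ app D.φ x) ?_ (List.suffix_append _ _) ?_
    · rw [H1]; exact List.suffix_append _ _
    · have := D.le_len x; omega
  have h2 : D.w2 <+: app D.φ y := by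
    refine List.prefix_of_prefix_length_le (l₃ := app D.φ y ++ D.w2) ?_ (List.prefix_append _ _) ?_
    · rw [H2]; exact List.prefix_append _ _
    · have := D.le_len y; omega
  obtain ⟨s, hs⟩ := h1
  obtain ⟨t, ht⟩ := h2
  refine (D.lang_app hl).sub ⟨s, t, ?_⟩
  rw [app_append, app_append, ← hs, ← ht, Ph]
  simp

lemma lang_ext [Nontrivial A] {v : List A} {a b : A} (h : Lang D.u (a :: v ++ [b])) :
    Lang D.u (D.s1 a :: D.Ph v ++ [D.s2 b]) := by
  refine (D.lang_Ph h).sub ⟨D.t1 a, D.t2 b, ?_⟩
  have : D.Ph (a :: v ++ [b]) = D.f1 a ++ D.Ph v ++ D.f2 b := by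
    simp only [Ph, List.cons_append, app_cons, app_append, app_nil, List.append_nil]
    rw [← List.append_assoc D.w1, D.h1]
    simp only [List.append_assoc, D.h2]
  rw [this, D.e1, D.e2]
  simp

lemma lang_ext_iter [Nontrivial A] (N : ℕ) {v : List A} {a b : A}
    (h : Lang D.u (a :: v ++ [b])) :
    Lang D.u ((D.s1 ^ N) a :: D.Ph^[N] v ++ [(D.s2 ^ N) b]) := by
  induction N with
  | zero => exact h
  | succ N ih =>
    rw [Function.iterate_succ_apply', pow_succ', pow_succ']
    exact D.lang_ext ih

lemma infix_iter (N : ℕ) (v : List A) : (app D.φ)^[N] v <:+: D.Ph^[N] v := by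
  induction N with
  | zero => exact List.infix_rfl
  | succ N ih =>
    rw [Function.iterate_succ_apply', Function.iterate_succ_apply']
    exact (app_infix _ ih).trans ⟨_, _, rfl⟩

lemma compat {W : List A} (h1 : W.reverse = W) (h2 : (D.Ph W).reverse = D.Ph W)
    (h3 : ∀ a, a ∈ W) : (∀ v : List A, D.Ph v.reverse = (D.Ph v).reverse) ∧ D.s1 = D.s2 := by
  have h4 := h2
  nth_rw 1 [Ph_eq1] at h4
  rw [Ph_eq2, List.reverse_append, app_reverse, h1] at h4
  obtain ⟨h5, h6⟩ := List.append_inj h4 List.length_reverse
  have h7 : ∀ a, (D.f1 a).reverse = D.f2 a := fun a =>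
    app_eq_letters (f := fun a => (D.f1 a).reverse)
      (fun a => by rw [List.length_reverse, ← len1, len2]) h6 a (h3 a)
  constructor
  · intro v
    rw [Ph_eq2, Ph_eq1, List.reverse_append, app_reverse, h5]
    simp only [h7]
  · ext a
    have := h7 a
    rw [D.e1, D.e2] at this
    simp at this
    exact this.1

lemma pull {w W : List A} {h : A → A → ℚ} (e1 e2 : A ≃ A)
    (hl : ∀ a b, Lang D.u (a :: w ++ [b]) → Lang D.u (e1 a :: W ++ [e2 b]))
    (hp : Pot D.u W (fun a b => h (e1.symm a) (e2.symm b))) : Pot D.u w h := by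
  obtain ⟨fL, fR, hf⟩ := hp
  refine ⟨fun a => fL (e1 a), fun b => fR (e2 b), fun a b hab => ?_⟩
  simpa using hf _ _ (hl a b hab)

theorem pot [Fintype A] [Nontrivial A] {K : ℕ} (hK : ∀ e, K < e → Good D.u 0 e) (w : List A)
    (χ : List A → ℚ) (hχ : Anti χ) : Pot D.u w (fun a b => χ (a :: w ++ [b])) := by
  classical
  by_cases h0 : D.Ph w = []
  · -- the stationary case, empty word
    have hw : w = [] := by
      have := D.le_len w
      have h1 := congrArg List.length h0
      simp only [Ph, List.length_append, List.length_nil] at h1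
      exact List.length_eq_zero_iff.mp (by omega)
    subst hw
    simp only [Ph, app_nil, List.append_nil, List.append_eq_nil_iff] at h0
    have a1 : ∀ a, D.φ a = D.t1 a ++ [D.s1 a] := fun a => by
      have := D.h1 a
      rw [h0.1] at this
      simpa [D.e1] using this
    have a2 : ∀ a, D.φ a = D.s2 a :: D.t2 a := fun a => by
      have := D.h2 a
      rw [h0.2] at this
      simpa [D.e2] using this
    have b1 : ∀ N a, ∃ t, (app D.φ)^[N] [a] = t ++ [(D.s1 ^ N) a] := by
      intro N a
      induction N with
      | zero => exact ⟨[], rfl⟩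
      | succ N ih =>
        obtain ⟨t, ht⟩ := ih
        refine ⟨app D.φ t ++ D.t1 ((D.s1 ^ N) a), ?_⟩
        rw [Function.iterate_succ_apply', ht, pow_succ']
        simp [a1]
    have b2 : ∀ N a, ∃ t, (app D.φ)^[N] [a] = (D.s2 ^ N) a :: t := by
      intro N a
      induction N with
      | zero => exact ⟨[], rfl⟩
      | succ N ih =>
        obtain ⟨t, ht⟩ := ih
        refine ⟨D.t2 ((D.s2 ^ N) a) ++ app D.φ t, ?_⟩
        rw [Function.iterate_succ_apply', ht, pow_succ', app_cons, a2]
        simp
    set N := Fintype.card (Equiv.Perm A) * (D.k * K) with hN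
    have hNk : D.k * K ≤ N := Nat.le_mul_of_pos_left _ Fintype.card_pos
    have p1 : D.s1 ^ N = 1 := by
      rw [hN, pow_mul]
      have : (D.s1 : Equiv.Perm A) ^ Fintype.card (Equiv.Perm A) = 1 := pow_card_eq_one
      rw [this, one_pow]
    have p2 : D.s2 ^ N = 1 := by
      rw [hN, pow_mul]
      have : (D.s2 : Equiv.Perm A) ^ Fintype.card (Equiv.Perm A) = 1 := pow_card_eq_one
      rw [this, one_pow]
    have c1 : ∀ a, ∃ l s : List A, l.length = K ∧ (app D.φ)^[N] [a] = s ++ (l ++ [a]) := by
      intro a
      obtain ⟨t, ht⟩ := b1 N a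
      have hl := D.grow (v := [a]) (by simp) K hNk
      rw [p1] at ht
      rw [ht] at hl ⊢
      simp only [List.length_append, List.length_singleton] at hl
      refine ⟨t.drop (t.length - K), t.take (t.length - K), by simp; omega, ?_⟩
      rw [← List.append_assoc, List.take_append_drop]; rfl
    have c2 : ∀ a, ∃ r s : List A, r.length = K ∧ (app D.φ)^[N] [a] = (a :: r) ++ s := by
      intro a
      obtain ⟨t, ht⟩ := b2 N a
      have hl := D.grow (v := [a]) (by simp) K hNk
      rw [p2] at ht
      rw [ht] at hl ⊢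
      simp only [List.length_cons] at hl
      refine ⟨t.take K, t.drop K, by simp; omega, ?_⟩
      rw [List.cons_append, List.take_append_drop]; rfl
    choose l sl hl hl' using c1
    choose r sr hr hr' using c2
    refine pot_eps hK l r hl hr (fun a b hab => ?_) hχ
    have := D.lang_iter N hab
    rw [show [a, b] = [a] ++ [b] from rfl, iter_append, hl', hr'] at this
    exact this.sub ⟨sl a, sr b, by simp⟩
  · by_cases hN : ∃ N, K ≤ (D.Ph^[N] w).length ∧ (D.Ph^[N] w).reverse ≠ D.Ph^[N] w
    · obtain ⟨N, h1, h2⟩ := hN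
      exact D.pull (D.s1 ^ N) (D.s2 ^ N) (fun a b h => D.lang_ext_iter N h)
        (pot_nonpal hK _ h1 h2 _)
    · push Not at hN
      set M := D.k * K + D.k with hM
      have hlen : ∀ N, M ≤ N → K ≤ (D.Ph^[N + 1] w).length := by
        intro N h
        have a1 := D.grow h0 K (N := N) (by omega)
        have a2 := (D.infix_iter N (D.Ph w)).length_le
        rw [Function.iterate_succ_apply]
        omega
      have q1 := hN _ (hlen M le_rfl)
      have q2 := hN _ (hlen (M + 1) (by omega))
      rw [Function.iterate_succ_apply'] at q2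
      obtain ⟨c1, c2⟩ := D.compat q1 q2 (fun a => by
        rw [Function.iterate_succ_apply]
        exact (D.infix_iter M (D.Ph w)).subset (D.all_letters h0 (by omega) a))
      have c3 : ∀ N, D.Ph^[N] w.reverse = (D.Ph^[N] w).reverse := by
        intro N
        induction N with
        | zero => rfl
        | succ N ih => rw [Function.iterate_succ_apply', Function.iterate_succ_apply', ih, c1]
      have hw : w.reverse = w := (D.Ph_inj.iterate (M + 1)) (by rw [c3, q1])
      refine D.pull (D.s1 ^ (M + 1)) (D.s2 ^ (M + 1)) (fun a b h => D.lang_ext_iter _ h)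
        (pot_pal hK _ (hlen M le_rfl) q1 _ (fun a b => ?_))
      rw [c2, ← hχ]
      simp [hw]

end Data

theorem main [Fintype A] (φ : A → List A) (u : ℕ → A) (hp : Primitive φ) (hm : Marked φ)
    (hf : IsFixedPoint φ u) (hfin : BddAbove (defect '' {w | IsFactor u w})) (w : List A)
    (hw : IsFactor u w) : defect w = 0 := by
  obtain ⟨i, hi⟩ := (isFactor_iff u w).mp hw
  rw [hi]
  apply defect_zero
  intro i n
  rcases subsingleton_or_nontrivial A with h | h
  · exact ⟨i, n + 1, le_rfl, by omega, fun _ _ _ => Subsingleton.elim _ _, fun j _ _ => by omega⟩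
  · obtain ⟨D, rfl⟩ := exists_data hp hm hf
    obtain ⟨K, hK⟩ := eventually_good D.u hfin
    exact rich (fun z hz => lang_reverse hK D.recur hz) (fun w χ _ hχ => D.pot hK w χ hχ) i n

end Pool.Agent.MP_90aa3f_co.H64
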