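import Pool.Agent.MP_90aa3f_co.H64.Defs

set_option autoImplicit false

namespace Pool.Agent.MP_90aa3f_co.H64

variable {A : Type}

/-- Number of palindromic factors. -/
noncomputable def pc (w : List A) : ℕ := Set.ncard {v : List A | v <:+: w ∧ v.reverse = v}

lemma pal_fin (w : List A) : {v : List A | v <:+: w ∧ v.reverse = v}.Finite :=
  (List.finite_toSet w.sublists).subset (fun v hv => by simpa using hv.1.sublist)

lemma pc_nil : pc ([] : List A) = 1 := by
  have : {v : List A | v <:+: [] ∧ v.reverse = v} = {[]} := by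
    ext v
    simp only [List.infix_nil, Set.mem_ofPred_eq, Set.mem_singleton_iff]
    constructor
    · exact fun h => h.1
    · rintro rfl; simp
  rw [pc, this, Set.ncard_singleton]

lemma new_unique {w : List A} {a : A} {p q : List A} (hp : p <:+ w ++ [a]) (hp' : p.reverse = p)
    (hp'' : ¬ p <:+: w) (hq : q <:+ w ++ [a]) (hq' : q.reverse = q) (hq'' : ¬ q <:+: w) :
    p = q := by
  wlog h : p.length ≤ q.length generalizing p q
  · exact (this hq hq' hq'' hp hp' hp'' (by omega)).symm
  have h1 : p <:+ q := List.suffix_of_suffix_length_le hp hq h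
  rcases h.lt_or_eq with h | h
  · exfalso
    apply hp''
    have h2 : p <+: q := by
      rw [← hp', ← hq']; exact List.reverse_prefix.mpr h1
    obtain ⟨t, rfl⟩ := h2
    obtain ⟨s, hs⟩ := hq
    have ht : t ≠ [] := by rintro rfl; simp at h
    obtain ⟨t', b, rfl⟩ := List.eq_nil_or_concat t |>.resolve_left ht
    rw [List.concat_eq_append, ← List.append_assoc, ← List.append_assoc] at hs
    have := List.append_inj_left' hs rfl
    exact ⟨s, t', by rw [← this]⟩
  · exact h1.eq_of_length h

lemma pc_old {w : List A} {a : A}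
    (h : ¬ ∃ p, p <:+ w ++ [a] ∧ p.reverse = p ∧ ¬ p <:+: w) : pc (w ++ [a]) = pc w := by
  unfold pc
  congr 1
  ext v
  simp only [Set.mem_ofPred_eq, List.infix_concat_iff]
  constructor
  · rintro ⟨h1 | h1, h2⟩
    · by_contra hc
      exact h ⟨v, h1, h2, fun h3 => hc ⟨h3, h2⟩⟩
    · exact ⟨h1, h2⟩
  · exact fun h => ⟨Or.inr h.1, h.2⟩

lemma pc_new {w : List A} {a : A}
    (h : ∃ p, p <:+ w ++ [a] ∧ p.reverse = p ∧ ¬ p <:+: w) : pc (w ++ [a]) = pc w + 1 := by
  obtain ⟨p, h1, h2, h3⟩ := h
  unfold pc
  rw [← Set.ncard_insert_of_notMem (a := p) (fun h => h3 h.1) (pal_fin w)]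
  congr 1
  ext v
  simp only [Set.mem_ofPred_eq, List.infix_concat_iff, Set.mem_insert_iff]
  constructor
  · rintro ⟨h4 | h4, h5⟩
    · by_cases h6 : v <:+: w
      · exact Or.inr ⟨h6, h5⟩
      · exact Or.inl (new_unique h4 h5 h6 h1 h2 h3)
    · exact Or.inr ⟨h4, h5⟩
  · rintro (rfl | h)
    · exact ⟨Or.inl h1, h2⟩
    · exact ⟨Or.inr h.1, h.2⟩

/-- The factor of length `n` at position `i`. -/
def win (u : ℕ → A) (i n : ℕ) : List A := (List.range n).map (fun k => u (i + k))

section
variable (u : ℕ → A)

@[simp] lemma length_win (i n : ℕ) : (win u i n).length = n := by simp [win]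

lemma getElem_win (i n k : ℕ) (h : k < (win u i n).length) : (win u i n)[k] = u (i + k) := by
  simp [win]

lemma pre_eq (n : ℕ) : pre u n = win u 0 n := by simp [pre, win]

lemma win_add (i m n : ℕ) : win u i (m + n) = win u i m ++ win u (i + m) n := by
  simp [win, List.range_add, Function.comp_def, add_assoc]

lemma win_succ (i n : ℕ) : win u i (n + 1) = win u i n ++ [u (i + n)] := by
  rw [win_add]; simp [win]

lemma win_succ' (i n : ℕ) : win u i (n + 1) = u i :: win u (i + 1) n := by
  rw [add_comm n 1, win_add]; simp [win]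

def Eqw (i j n : ℕ) : Prop := ∀ k, k < n → u (i + k) = u (j + k)

def Rvw (i j n : ℕ) : Prop := ∀ k l, k + l + 1 = n → u (i + k) = u (j + l)

lemma eqw_iff (i j n : ℕ) : Eqw u i j n ↔ win u i n = win u j n := by
  constructor
  · intro h
    apply List.ext_getElem (by simp)
    intro k h1 h2
    rw [getElem_win, getElem_win]
    exact h k (by simpa using h1)
  · intro h k hk
    have := List.getElem_of_eq h (i := k) (by simpa using hk)
    rwa [getElem_win, getElem_win] at this

lemma rvw_iff (i j n : ℕ) : Rvw u i j n ↔ (win u i n).reverse = win u j n := by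
  constructor
  · intro h
    apply List.ext_getElem (by simp)
    intro k h1 h2
    rw [List.getElem_reverse, getElem_win, getElem_win]
    simp only [length_win] at h2 ⊢
    exact h _ _ (by omega)
  · intro h k l hk
    have := List.getElem_of_eq h (i := l) (by simp; omega)
    rw [List.getElem_reverse, getElem_win, getElem_win] at this
    simp only [length_win] at this
    rw [← this]; congr 2; omega

lemma infix_win {v : List A} {i n : ℕ} :
    v <:+: win u i n ↔ ∃ j, i ≤ j ∧ j + v.length ≤ i + n ∧ v = win u j v.length := by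
  constructor
  · rintro ⟨s, t, h⟩
    have hl := congrArg List.length h
    simp only [List.length_append, length_win] at hl
    refine ⟨i + s.length, by omega, by omega, ?_⟩
    rw [← hl, win_add, win_add] at h
    have h1 := List.append_inj_left' h (by simp)
    exact List.append_inj_right h1 (by simp)
  · rintro ⟨j, h1, h2, h3⟩
    obtain ⟨a, rfl⟩ := Nat.exists_eq_add_of_le h1
    obtain ⟨b, hb⟩ := Nat.exists_eq_add_of_le h2
    have : n = a + v.length + b := by omega
    rw [this, win_add, win_add, ← h3]
    exact ⟨_, _, rfl⟩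

lemma suffix_win {v : List A} {i n : ℕ} :
    v <:+ win u i n ↔ ∃ j, i ≤ j ∧ j + v.length = i + n ∧ v = win u j v.length := by
  constructor
  · rintro ⟨s, h⟩
    have hl := congrArg List.length h
    simp only [List.length_append, length_win] at hl
    refine ⟨i + s.length, by omega, by omega, ?_⟩
    rw [← hl, win_add] at h
    exact List.append_inj_right h (by simp)
  · rintro ⟨j, h1, h2, h3⟩
    obtain ⟨a, rfl⟩ := Nat.exists_eq_add_of_le h1
    have : n = a + v.length := by omega
    rw [this, win_add, ← h3]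
    exact ⟨_, rfl⟩

/-- The language of `u`. -/
def Lang (w : List A) : Prop := ∃ i, w = win u i w.length

lemma lang_win (i n : ℕ) : Lang u (win u i n) := ⟨i, by simp⟩

lemma Lang.sub {u : ℕ → A} {v w : List A} (h : Lang u w) (hv : v <:+: w) : Lang u v := by
  obtain ⟨i, hi⟩ := h
  rw [hi] at hv
  obtain ⟨j, -, -, h⟩ := (infix_win u).mp hv
  exact ⟨j, h⟩

lemma isFactor_iff (w : List A) : IsFactor u w ↔ Lang u w := by
  constructor
  · rintro ⟨n, h⟩
    rw [pre_eq] at h
    exact (lang_win u 0 n).sub h
  · rintro ⟨i, h⟩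
    exact ⟨i + w.length, by rw [pre_eq]; exact (infix_win u).mpr ⟨i, by omega, by omega, h⟩⟩

/-- The factor `[i, e)` has a palindromic suffix occurring only once. -/
def Good (i e : ℕ) : Prop :=
  ∃ s m, i ≤ s ∧ s + m = e ∧ Rvw u s s m ∧ ∀ j, i ≤ j → j < s → ¬ Eqw u j s m

lemma good_iff (i n : ℕ) : Good u i (i + n + 1) ↔
    ∃ p, p <:+ win u i n ++ [u (i + n)] ∧ p.reverse = p ∧ ¬ p <:+: win u i n := by
  rw [← win_succ]
  constructor
  · rintro ⟨s, m, h1, h2, h3, h4⟩
    refine ⟨win u s m, (suffix_win u).mpr ⟨s, h1, by simp; omega, by simp⟩,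
      (rvw_iff u _ _ _).mp h3, fun h => ?_⟩
    obtain ⟨j, h5, h6, h7⟩ := (infix_win u).mp h
    simp only [length_win] at h6 h7
    exact h4 j h5 (by omega) ((eqw_iff u _ _ _).mpr h7.symm)
  · rintro ⟨p, h1, h2, h3⟩
    obtain ⟨s, h4, h5, h6⟩ := (suffix_win u).mp h1
    refine ⟨s, p.length, h4, by omega, (rvw_iff u _ _ _).mpr (by rw [← h6, h2]),
      fun j h7 h8 h9 => h3 ((infix_win u).mpr ⟨j, h7, by omega, ?_⟩)⟩
    rw [(eqw_iff u _ _ _).mp h9, ← h6]

lemma defect_succ (i n : ℕ) :
    (Good u i (i + n + 1) → defect (win u i (n + 1)) = defect (win u i n)) ∧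
    (¬ Good u i (i + n + 1) → defect (win u i (n + 1)) = defect (win u i n) + 1) := by
  rw [good_iff]
  constructor
  · intro h
    have := pc_new h
    rw [← win_succ] at this
    unfold pc at this
    simp only [defect, this, length_win]
    push_cast; ring
  · intro h
    have := pc_old h
    rw [← win_succ] at this
    unfold pc at this
    simp only [defect, this, length_win]
    push_cast; ring

lemma defect_nil : defect ([] : List A) = 0 := by
  have := pc_nil (A := A)
  unfold pc at this
  rw [defect, this]; simp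

lemma defect_zero (h : ∀ i n, Good u i (i + n + 1)) (i n : ℕ) : defect (win u i n) = 0 := by
  induction n with
  | zero => simpa [win] using defect_nil
  | succ n ih => rw [(defect_succ u i n).1 (h i n), ih]

lemma eventually_good (h : BddAbove (defect '' {w | IsFactor u w})) :
    ∃ K, ∀ e, K < e → Good u 0 e := by
  by_contra hc
  push Not at hc
  have mono : ∀ n m, defect (win u 0 n) ≤ defect (win u 0 (n + m)) := by
    intro n m
    induction m with
    | zero => exact le_rfl
    | succ m ih =>
      by_cases hg : Good u 0 (0 + (n + m) + 1)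
      · rw [← add_assoc, (defect_succ u 0 (n + m)).1 hg]; exact ih
      · rw [← add_assoc, (defect_succ u 0 (n + m)).2 hg]; omega
  have unb : ∀ t : ℕ, ∃ n, (t : ℤ) ≤ defect (win u 0 n) := by
    intro t
    induction t with
    | zero => exact ⟨0, by simp [win, defect_nil]⟩
    | succ t ih =>
      obtain ⟨n, hn⟩ := ih
      obtain ⟨e, he, hg⟩ := hc n
      obtain ⟨m, rfl⟩ := Nat.exists_eq_add_of_lt he
      refine ⟨n + m + 1, ?_⟩
      rw [(defect_succ u 0 (n + m)).2 (by simpa using hg)]
      have := mono n m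
      push_cast; omega
  obtain ⟨B, hB⟩ := h
  obtain ⟨n, hn⟩ := unb (B.toNat + 1)
  have := hB ⟨win u 0 n, (isFactor_iff u _).mpr (lang_win u 0 n), rfl⟩
  push_cast at hn
  omega

/-- Equal up to reversal. -/
def Cl (i j n : ℕ) : Prop := Eqw u i j n ∨ Rvw u i j n

variable {u}

lemma Eqw.symm {i j n : ℕ} (h : Eqw u i j n) : Eqw u j i n := fun k hk => (h k hk).symm
lemma Rvw.symm {i j n : ℕ} (h : Rvw u i j n) : Rvw u j i n :=
  fun k l hk => (h l k (by omega)).symm
lemma Eqw.trans {i j l n : ℕ} (h : Eqw u i j n) (h' : Eqw u j l n) : Eqw u i l n :=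
  fun k hk => (h k hk).trans (h' k hk)
lemma Eqw.trans_rvw {i j l n : ℕ} (h : Eqw u i j n) (h' : Rvw u j l n) : Rvw u i l n :=
  fun k m hk => (h k (by omega)).trans (h' k m hk)
lemma Rvw.trans_eqw {i j l n : ℕ} (h : Rvw u i j n) (h' : Eqw u j l n) : Rvw u i l n :=
  fun k m hk => (h k m hk).trans (h' m (by omega))
lemma Rvw.trans {i j l n : ℕ} (h : Rvw u i j n) (h' : Rvw u j l n) : Eqw u i l n :=
  fun k hk => (h k (n - 1 - k) (by omega)).trans (h' (n - 1 - k) k (by omega))
lemma Cl.symm {i j n : ℕ} (h : Cl u i j n) : Cl u j i n := h.imp Eqw.symm Rvw.symm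
lemma Cl.trans {i j l n : ℕ} (h : Cl u i j n) (h' : Cl u j l n) : Cl u i l n := by
  rcases h with h | h <;> rcases h' with h' | h'
  exacts [Or.inl (h.trans h'), Or.inr (h.trans_rvw h'), Or.inr (h.trans_eqw h'),
    Or.inl (h.trans h')]

lemma Eqw.sub {i j n : ℕ} (h : Eqw u i j n) (e m : ℕ) (hm : e + m ≤ n) :
    Eqw u (i + e) (j + e) m := fun k hk => by
  have := h (e + k) (by omega)
  rwa [← add_assoc, ← add_assoc] at this

lemma Rvw.sub {i j n : ℕ} (h : Rvw u i j n) (e f m : ℕ) (hm : e + f + m = n) :
    Rvw u (i + e) (j + f) m := fun k l hk => by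
  have := h (e + k) (f + l) (by omega)
  rwa [← add_assoc, ← add_assoc] at this

/-- Long returns to a class of factors are palindromes. -/
lemma return_pal {K : ℕ} (hK : ∀ e, K < e → Good u 0 e) (d n : ℕ) (hd : 0 < d) (hn : K < d + n)
    (i : ℕ) (h1 : Cl u i (i + d) n) (h2 : ∀ e, 0 < e → e < d → ¬ Cl u i (i + e) n) :
    Rvw u i i (d + n) := by
  induction i using Nat.strong_induction_on with
  | _ i ih =>
  by_cases hmin : ∃ j, j < i ∧ Cl u j i (d + n)
  · obtain ⟨j, hj, hc⟩ := hmin
    have key : Rvw u j j (d + n) := by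
      rcases hc with hc | hc
      · have a0 : Eqw u j i n := by simpa using hc.sub 0 n (by omega)
        refine ih j hj ?_ (fun e he he' hcl => h2 e he he' ?_)
        · exact (Cl.trans (Or.inl a0) h1).trans (Or.inl (hc.sub d n le_rfl).symm)
        · exact (Cl.trans (Or.inl a0.symm) hcl).trans (Or.inl (hc.sub e n (by omega)))
      · have a0 : Rvw u j (i + d) n := by simpa using hc.sub 0 d n (by omega)
        have a1 : Rvw u (j + d) i n := by simpa using hc.sub d 0 n (by omega)
        refine ih j hj ?_ (fun e he he' hcl => h2 (d - e) (by omega) (by omega) ?_)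
        · exact (Cl.trans (Or.inr a0) h1.symm).trans (Or.inr a1.symm)
        · exact ((h1.trans (Or.inr a0.symm)).trans hcl).trans
            (Or.inr (hc.sub e (d - e) n (by omega)))
    rcases hc with hc | hc
    · exact (hc.symm.trans_rvw key).trans_eqw hc
    · exact (hc.symm.trans key).trans_rvw hc
  · obtain ⟨s, m, -, e1, e2, e3⟩ := hK (i + d + n) (by omega)
    rcases lt_trichotomy m (d + n) with h | h | h
    · exfalso
      by_cases hmn : m ≤ n
      · obtain ⟨f, rfl⟩ := Nat.exists_eq_add_of_le hmn
        have hs : s = i + d + f := by omega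
        subst hs
        rcases h1 with h1 | h1
        · exact e3 (i + f) (by omega) (by omega) (h1.sub f m (by omega))
        · refine e3 i (by omega) (by omega) ?_
          have : Rvw u i (i + d + f) m := by simpa using h1.sub 0 f m (by omega)
          exact this.trans e2
      · have a0 := e2.sub 0 (m - n) n (by omega)
        rw [show s + (m - n) = i + d by omega,
          show s + 0 = i + (d + n - m) by omega] at a0
        exact h2 (d + n - m) (by omega) (by omega) (h1.trans (Or.inr a0.symm))
    · have : s = i := by omega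
      rw [← h, ← this]; exact e2
    · exfalso
      have a0 := e2.sub 0 (m - (d + n)) (d + n) (by omega)
      rw [show s + (m - (d + n)) = i by omega, add_zero] at a0
      exact hmin ⟨s, by omega, Or.inr a0⟩

end

end Pool.Agent.MP_90aa3f_co.H64
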